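import Pool.Agent.Helper2.LD.St2b

/-!
# LD project, module A2a: decoding, assembly
-/

set_option autoImplicit false

namespace Pool.Agent.Helper11.LD

open Pool.Agent.Helper2.LD

/-- encoded graphs of isomorphic labelled graphs -/
private def encIso {X X' K : Type} {P : SimpleGraph X} {P' : SimpleGraph X'} (ψ : P ≃g P')
    (m : ℕ) (code : K → Finset ℕ) (L : X → Finset K) (L' : X' → Finset K)
    (h : ∀ x, L' (ψ x) = L x) : encG P m code L ≃g encG P' m code L' where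
  toFun u := ⟨(ψ u.1.1, u.1.2), by
    have hu := u.2
    rw [← h u.1.1] at hu
    exact hu⟩
  invFun u := ⟨(ψ.symm u.1.1, u.1.2), by
    have hu := u.2
    have e : L (ψ.symm u.1.1) = L' u.1.1 := by
      rw [← h (ψ.symm u.1.1), RelIso.apply_symm_apply]
    show Fb.ok m code (L (ψ.symm u.1.1)) u.1.2
    rw [e]
    exact hu⟩
  left_inv u := Subtype.ext (Prod.ext (ψ.symm_apply_apply _) rfl)
  right_inv u := Subtype.ext (Prod.ext (ψ.apply_symm_apply _) rfl)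
  map_rel_iff' := by
    intro u v
    show ((P'.Adj (ψ u.1.1) (ψ v.1.1) ∧ u.1.2 = Fb.root ∧ v.1.2 = Fb.root) ∨
      (ψ u.1.1 = ψ v.1.1 ∧ Fb.adj u.1.2 v.1.2)) ↔
      ((P.Adj u.1.1 v.1.1 ∧ u.1.2 = Fb.root ∧ v.1.2 = Fb.root) ∨
      (u.1.1 = v.1.1 ∧ Fb.adj u.1.2 v.1.2))
    rw [ψ.map_rel_iff, ψ.injective.eq_iff]

/-- brushes over isomorphic skeletons -/
private def brIso {V V' : Type} (K : Type) {S : SimpleGraph V} {S' : SimpleGraph V'}
    (e : S ≃g S') (h : ℕ) : brG K S h ≃g brG K S' h where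
  toFun u := ⟨(e u.1.1, u.1.2), u.2⟩
  invFun u := ⟨(e.symm u.1.1, u.1.2), u.2⟩
  left_inv u := Subtype.ext (Prod.ext (e.symm_apply_apply _) rfl)
  right_inv u := Subtype.ext (Prod.ext (e.apply_symm_apply _) rfl)
  map_rel_iff' := by
    intro u v
    show ((u.1.2 = [] ∧ v.1.2 = [] ∧ S'.Adj (e u.1.1) (e v.1.1)) ∨
      (e u.1.1 = e v.1.1 ∧ ((∃ c, v.1.2 = c :: u.1.2) ∨ (∃ c, u.1.2 = c :: v.1.2)))) ↔
      ((u.1.2 = [] ∧ v.1.2 = [] ∧ S.Adj u.1.1 v.1.1) ∨
      (u.1.1 = v.1.1 ∧ ((∃ c, v.1.2 = c :: u.1.2) ∨ (∃ c, u.1.2 = c :: v.1.2))))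
    rw [e.map_rel_iff, e.injective.eq_iff]

private theorem brL_brIso {V V' K : Type} {S : SimpleGraph V} {S' : SimpleGraph V'}
    (e : S ≃g S') (h : ℕ) (lab : V → Finset K) (lab' : V' → Finset K)
    (hl : ∀ v, lab' (e v) = lab v) (u : BrV K V h) :
    brL lab' (brIso K e h u) = brL lab u := by
  obtain ⟨⟨v, l⟩, hu⟩ := u
  cases l with
  | nil => exact hl v
  | cons c l => rfl

theorem pA2a (h1 : StTrX) (h2 : StDecX1) (h3 : StDecX2) (h4 : StTrY) (h5 : StDecY) : StA2a := by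
  intro K V W _ _ k hk hK C S lab H hyp hEF
  have hloc := h1 k hk hK C S lab H hEF
  obtain ⟨L, ψ, hG⟩ := h2 k hk C H hloc
  obtain ⟨φ, hφ⟩ := h3 k hk C H hloc L ψ hG
  have hpl := h4 k hk hK C S lab H hyp hEF L φ hφ hG.lab
  set P := H.comap (Subtype.val : {v // Plv H v} → W) with hP
  have hHH : 2 ≤ HH k := by
    unfold HH NN
    have : 1 ≤ 2 ^ (k - 3) := Nat.one_le_two_pow
    omega
  obtain ⟨φ2, hφ2⟩ := h5 (HH k) P L (by omega) hHH hpl
  let s : Set W := {w | ∃ h : Plv H w, HubL (L ⟨w, h⟩)}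
  let S0 := P.comap (Subtype.val : {x // HubL (L x)} → {v // Plv H v})
  let e : {x : {v // Plv H v} // HubL (L x)} ≃ s :=
    { toFun := fun x => ⟨x.1.1, x.1.2, x.2⟩
      invFun := fun y => ⟨⟨y.1, y.2.fst⟩, y.2.snd⟩
      left_inv := fun _ => rfl
      right_inv := fun _ => rfl }
  let S' : SimpleGraph s := S0.comap e.symm
  let e' : S0 ≃g S' :=
    { toEquiv := e
      map_rel_iff' := by
        intro a b
        show S0.Adj (e.symm (e a)) (e.symm (e b)) ↔ S0.Adj a b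
        rw [e.symm_apply_apply, e.symm_apply_apply] }
  let lab' : s → Finset K := fun x => L ⟨x.1, x.2.fst⟩
  refine ⟨s, S', lab', ⟨?_⟩, fun x => x.2.snd⟩
  have hl : ∀ v, lab' (e' v) = (fun s : {x // HubL (L x)} => L s.1) v := fun _ => rfl
  exact φ.trans (encIso (φ2.trans (brIso K e' (HH k))) (MM k) C.code L (brL lab')
    (fun x => (brL_brIso e' (HH k) _ lab' hl (φ2 x)).trans (hφ2 x)))

end Pool.Agent.Helper11.LD
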